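import Pool.Agent.Helper65.EH.Defs
import Pool.Agent.Helper65.ET.Circle2

/-!
EH, part CIRC: the circle inequality in the half plane for the weight `y ^ k`
(adapted from `Pool/Agent/Helper65/ET/Circle2.lean`)
-/

set_option autoImplicit false

open MeasureTheory Metric Real Set

namespace Pool.Agent.Helper74.EH.CIRC

open Pool.Agent.Helper65.EH
open Pool.Agent.Helper65.ET (pt Per BB cay cc pt_re norm_cc one_sub_ne one_sub_re_pos cay_re
  cay_re_pos cay_hasDerivAt cay_differentiableOn circle_ineq)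

variable {F F1 F2 : ℂ → ℂ}

/-- the transported function -/
noncomputable def gg (k : ℝ) (F : ℂ → ℂ) (x y : ℝ) (w : ℂ) : ℂ :=
  ((√(pw k y) : ℝ) : ℂ) * (F (y * cay w + x * Complex.I) * (1 - w) ^ ((-k : ℝ) : ℂ))

lemma gg_differentiableOn (k : ℝ) (h : Per F F1 F2) (x : ℝ) {y : ℝ} (hy : 0 < y) :
    DifferentiableOn ℂ (gg k F x y) (closedBall 0 (4 / 5)) := by
  unfold gg
  apply DifferentiableOn.const_mul
  apply DifferentiableOn.mul
  · intro w hw
    have hw' : ‖w‖ ≤ 4 / 5 := by simpa using hw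
    have h1 : DifferentiableWithinAt ℂ (fun w => (y : ℂ) * cay w + x * Complex.I)
        (closedBall 0 (4 / 5)) w := ((cay_differentiableOn w hw).const_mul _).add_const _
    have h2 : DifferentiableAt ℂ F (y * cay w + x * Complex.I) := by
      apply (h.d1 _ _).differentiableAt
      simp only [Complex.add_re, Complex.re_ofReal_mul, Complex.I_re, mul_zero,
        add_zero]
      exact mul_pos hy (cay_re_pos hw')
    exact h2.comp_differentiableWithinAt w h1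
  · intro w hw
    have hw' : ‖w‖ ≤ 4 / 5 := by simpa using hw
    apply DifferentiableWithinAt.cpow_const (by fun_prop)
    left
    exact one_sub_re_pos hw'

lemma gg_zero (k x y : ℝ) : gg k F x y 0 = ((√(pw k y) : ℝ) : ℂ) * F (pt x y) := by
  unfold gg cay pt
  simp

lemma deriv_gg_zero (k : ℝ) (h : Per F F1 F2) (x : ℝ) {y : ℝ} (hy : 0 < y) :
    deriv (gg k F x y) 0 = ((√(pw k y) : ℝ) : ℂ) * (2 * y * F1 (pt x y) + k * F (pt x y)) := by
  have e0 : (y : ℂ) * cay 0 + x * Complex.I = pt x y := by unfold cay pt; simp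
  have h1 : HasDerivAt (fun w => (y : ℂ) * cay w + x * Complex.I) (y * 2) 0 :=
    (cay_hasDerivAt.const_mul _).add_const _
  have h2 : HasDerivAt F (F1 (pt x y)) ((y : ℂ) * cay 0 + x * Complex.I) := by
    rw [e0]; exact h.d1 _ (by rw [pt_re]; exact hy)
  have h3 : HasDerivAt (fun w => F ((y : ℂ) * cay w + x * Complex.I)) (F1 (pt x y) * (y * 2)) 0 :=
    HasDerivAt.comp (0 : ℂ) (h₂ := F) (h := fun w => (y : ℂ) * cay w + x * Complex.I) h2 h1
  have h4 : HasDerivAt (fun w : ℂ => (1 - w) ^ ((-k : ℝ) : ℂ)) (k : ℂ) 0 := by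
    have h5 : HasDerivAt (fun w : ℂ => 1 - w) (-1) 0 := (hasDerivAt_id (0 : ℂ)).const_sub 1
    have h6 := h5.cpow_const (c := ((-k : ℝ) : ℂ)) (by simp)
    refine h6.congr_deriv ?_
    simp
  have h7 := ((h3.mul h4).const_mul ((√(pw k y) : ℝ) : ℂ)).deriv
  unfold gg
  rw [show (fun w => ((√(pw k y) : ℝ) : ℂ) * (F (y * cay w + x * Complex.I) *
    (1 - w) ^ ((-k : ℝ) : ℂ))) = fun w => ((√(pw k y) : ℝ) : ℂ) *
      ((fun w => F ((y : ℂ) * cay w + x * Complex.I)) * fun w : ℂ => (1 - w) ^ ((-k : ℝ) : ℂ)) w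
      from rfl, h7, e0, sub_zero, Complex.one_cpow]
  ring

lemma pw_nonneg (k : ℝ) {y : ℝ} (hy : 0 ≤ y) : 0 ≤ pw k y := Real.rpow_nonneg hy k

lemma vv_eq_norm (k x y : ℝ) : vv k F x y = pw k y * ‖F (pt x y)‖ ^ 2 := by
  unfold vv; rw [Complex.sq_norm, Complex.normSq_apply]; ring

lemma qq_eq_norm (k x y : ℝ) :
    qq k F F1 x y = pw k y * ‖2 * y * F1 (pt x y) + k * F (pt x y)‖ ^ 2 := by
  have e1 : (2 * (y : ℂ) * F1 (pt x y) + k * F (pt x y)).re =
      2 * y * (F1 (pt x y)).re + k * (F (pt x y)).re := by simp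
  have e2 : (2 * (y : ℂ) * F1 (pt x y) + k * F (pt x y)).im =
      2 * y * (F1 (pt x y)).im + k * (F (pt x y)).im := by simp
  unfold qq
  rw [Complex.sq_norm, Complex.normSq_apply, e1, e2]
  ring

lemma norm_gg_zero (k x : ℝ) {y : ℝ} (hy : 0 < y) : ‖gg k F x y 0‖ = √(vv k F x y) := by
  rw [gg_zero, norm_mul, Complex.norm_real, Real.norm_of_nonneg (Real.sqrt_nonneg _), vv_eq_norm,
    Real.sqrt_mul (pw_nonneg k hy.le), Real.sqrt_sq (norm_nonneg _)]

lemma norm_deriv_gg_zero (k : ℝ) (h : Per F F1 F2) (x : ℝ) {y : ℝ} (hy : 0 < y) :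
    ‖deriv (gg k F x y) 0‖ = √(qq k F F1 x y) := by
  rw [deriv_gg_zero k h x hy, norm_mul, Complex.norm_real,
    Real.norm_of_nonneg (Real.sqrt_nonneg _), qq_eq_norm,
    Real.sqrt_mul (pw_nonneg k hy.le), Real.sqrt_sq (norm_nonneg _)]

lemma sqrt_pw (k : ℝ) {y N : ℝ} (hy : 0 < y) (hN : 0 < N) :
    √(pw k (y * ((1 - (4 / 5) ^ 2) / N ^ 2))) = √(pw k y) * (3 / 5 : ℝ) ^ k * N ^ (-k) := by
  have e1 : y * ((1 - (4 / 5) ^ 2) / N ^ 2) = y * ((3 / 5 / N) * (3 / 5 / N)) := by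
    field_simp; norm_num
  have hp : (0 : ℝ) ≤ 3 / 5 / N := by positivity
  unfold pw
  rw [e1, Real.mul_rpow hy.le (mul_nonneg hp hp), Real.mul_rpow hp hp,
    Real.sqrt_mul (Real.rpow_nonneg hy.le k), Real.sqrt_mul_self (Real.rpow_nonneg hp k),
    Real.div_rpow (by norm_num) hN.le, Real.rpow_neg hN.le]
  ring

lemma norm_gg_cc (k x : ℝ) {y : ℝ} (hy : 0 < y) (φ : ℝ) :
    (3 / 5 : ℝ) ^ k * ‖gg k F x y (cc φ)‖ =
      √(vv k F (x + y * (cay (cc φ)).im) (y * (cay (cc φ)).re)) := by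
  have hpt : pt (x + y * (cay (cc φ)).im) (y * (cay (cc φ)).re) =
      y * cay (cc φ) + x * Complex.I := by
    apply Complex.ext
    · simp [pt]
    · simp [pt]; ring
  have h1 : 0 < ‖1 - cc φ‖ := norm_pos_iff.mpr (one_sub_ne (norm_cc φ).le)
  have hre : 0 ≤ y * (cay (cc φ)).re := (mul_pos hy (cay_re_pos (norm_cc φ).le)).le
  rw [vv_eq_norm, hpt, Real.sqrt_mul (pw_nonneg k hre), Real.sqrt_sq (norm_nonneg _)]
  unfold gg
  rw [norm_mul, norm_mul, Complex.norm_real, Real.norm_of_nonneg (Real.sqrt_nonneg _),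
    Complex.norm_cpow_real, cay_re, norm_cc, sqrt_pw k hy h1]
  ring

lemma cavg_ineq (k : ℝ) (h : Per F F1 F2) (x : ℝ) {y : ℝ} (hy : 0 < y) (c t : ℝ) (hc : 0 ≤ c)
    (ht : 0 ≤ t) :
    2 * t * (4 / 5 * (3 / 5 : ℝ) ^ k * √(qq k F F1 x y) +
      2 * c * (3 / 5 : ℝ) ^ k * √(vv k F x y) - (1 + c ^ 2)) -
      t ^ 2 * (1 + 4 * c ^ 2 + c ^ 4) ≤ cavg k F x y := by
  set κ : ℝ := (3 / 5 : ℝ) ^ k with hκ
  have hk : (0 : ℝ) < κ := by positivity
  have h1 := circle_ineq (gg k F x y) (4 / 5) (1 / κ) c (t / κ) (by norm_num) hc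
    (by positivity) (gg_differentiableOn k h x hy)
  rw [norm_gg_zero k x hy, norm_deriv_gg_zero k h x hy] at h1
  have h2 : κ ^ 2 * ((2 * π)⁻¹ * ∫ φ in (0 : ℝ)..2 * π,
      (max 0 (‖gg k F x y (circleMap 0 (4 / 5) φ)‖ - 1 / κ)) ^ 2) = cavg k F x y := by
    unfold cavg
    rw [← mul_assoc, mul_comm (κ ^ 2), mul_assoc, ← intervalIntegral.integral_const_mul]
    congr 1
    apply intervalIntegral.integral_congr
    intro φ _
    simp only
    unfold BB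
    rw [← norm_gg_cc k x hy φ]
    have h3 : κ * ‖gg k F x y (cc φ)‖ - 1 =
        κ * (‖gg k F x y (circleMap 0 (4 / 5) φ)‖ - 1 / κ) := by
      rw [mul_sub, mul_one_div, div_self hk.ne']; rfl
    have h4 : max 0 (κ * (‖gg k F x y (circleMap 0 (4 / 5) φ)‖ - 1 / κ)) =
        κ * max 0 (‖gg k F x y (circleMap 0 (4 / 5) φ)‖ - 1 / κ) := by
      rw [mul_max_of_nonneg _ _ hk.le, mul_zero]
    rw [h3, h4, mul_pow]
  rw [← h2]
  refine le_trans (le_of_eq ?_) (mul_le_mul_of_nonneg_left h1 (by positivity : (0 : ℝ) ≤ κ ^ 2))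
  field_simp

lemma const_le {k : ℝ} (hk : k ≤ 1 / 3) : √(71 / 100) ≤ (3 / 5 : ℝ) ^ k := by
  have h1 : (3 / 5 : ℝ) ^ (1 / 3 : ℝ) ≤ (3 / 5 : ℝ) ^ k :=
    Real.rpow_le_rpow_of_exponent_ge (by norm_num) (by norm_num) hk
  refine le_trans ?_ h1
  have hp : (0 : ℝ) ≤ (3 / 5 : ℝ) ^ (1 / 3 : ℝ) := by positivity
  have h3 : ((3 / 5 : ℝ) ^ (1 / 3 : ℝ)) ^ 3 = 3 / 5 := by
    rw [← Real.rpow_natCast, ← Real.rpow_mul (by norm_num)]
    norm_num
  set z := (3 / 5 : ℝ) ^ (1 / 3 : ℝ) with hz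
  apply Real.sqrt_le_iff.2
  refine ⟨hp, ?_⟩
  by_contra hcon
  push Not at hcon
  have h4 : (z ^ 2) ^ 3 < (71 / 100) ^ 3 := by
    apply pow_lt_pow_left₀ hcon (by positivity) (by norm_num)
  have h5 : (z ^ 2) ^ 3 = (z ^ 3) ^ 2 := by ring
  rw [h5, h3] at h4
  norm_num at h4

theorem main : S_CIRC := by
  intro k hk hk3 F F1 F2 h x y hy c t hc ht
  refine le_trans ?_ (cavg_ineq k h x hy c t hc ht)
  have h1 := const_le hk3
  have e1 : √(284 / 625 : ℝ) = 4 / 5 * √(71 / 100) := by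
    rw [show (284 / 625 : ℝ) = (4 / 5) ^ 2 * (71 / 100) by norm_num, Real.sqrt_mul (by norm_num),
      Real.sqrt_sq (by norm_num)]
  rw [e1]
  have hq := Real.sqrt_nonneg (qq k F F1 x y)
  have hv := Real.sqrt_nonneg (vv k F x y)
  gcongr

end Pool.Agent.Helper74.EH.CIRC
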