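import Pool.Agent.Helper65.EH.Defs

/-!
EH, part DSET: the integers with a repeated summand
-/

set_option autoImplicit false

open MeasureTheory Metric Real Set Finset

namespace Pool.Agent.Helper74.EH.DSET

open Pool.Agent.Helper65.EH
open Pool.Agent.Helper65.ET (Fr ind ind_nonneg ind_zero_or_one summable_a)

theorem ind_pos {A : Set ℕ} {n : ℕ} (h : n ∈ A) : ind A n = 1 := by
  unfold ind; rw [if_pos h]

theorem ind_neg {A : Set ℕ} {n : ℕ} (h : n ∉ A) : ind A n = 0 := by
  unfold ind; rw [if_neg h]

theorem zero_case (A : Set ℕ) (t : ℝ) (ht : 0 < t) :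
    ∑' n : ℕ, ind (dset A 0) n * exp (-(t * n)) ≤ Fr (ind A) t := by
  have hmem : ∀ n, n ∈ dset A 0 ↔ ∃ a ∈ A, n = 2 * a := by
    intro n
    constructor
    · rintro ⟨a, ha, s, hs, -, hn⟩
      rw [Multiset.card_eq_zero] at hs
      subst hs
      exact ⟨a, ha, by simpa using hn⟩
    · rintro ⟨a, ha, hn⟩
      exact ⟨a, ha, 0, by simp, by simp, by simpa using hn⟩
  have hinj : Function.Injective (fun a : ℕ => 2 * a) := fun a b h => by
    have : 2 * a = 2 * b := h
    omega
  have hsupp : Function.support (fun n : ℕ => ind (dset A 0) n * exp (-(t * n))) ⊆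
      Set.range (fun a : ℕ => 2 * a) := by
    intro n hn
    by_contra hcon
    apply hn
    have : n ∉ dset A 0 := by
      rw [hmem]
      rintro ⟨a, _, h⟩
      exact hcon ⟨a, h.symm⟩
    show ind (dset A 0) n * exp (-(t * n)) = 0
    rw [ind_neg this, zero_mul]
  rw [← hinj.tsum_eq hsupp]
  unfold Fr
  have hle : ∀ a : ℕ, ind (dset A 0) (2 * a) * exp (-(t * ((2 * a : ℕ) : ℝ))) ≤
      ind A a * exp (-(t * a)) := by
    intro a
    have h1 : ind (dset A 0) (2 * a) = ind A a := by
      by_cases h : a ∈ A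
      · rw [ind_pos h, ind_pos ((hmem _).2 ⟨a, h, rfl⟩)]
      · rw [ind_neg h, ind_neg]
        rw [hmem]
        rintro ⟨b, hb, hab⟩
        have : a = b := by omega
        exact h (this ▸ hb)
    rw [h1]
    apply mul_le_mul_of_nonneg_left _ (ind_nonneg A a)
    apply Real.exp_le_exp.2
    push_cast
    have : 0 ≤ t * a := by positivity
    linarith
  have hsum := summable_a (ind_zero_or_one A) ht
  refine Summable.tsum_le_tsum hle ?_ hsum
  exact Summable.of_nonneg_of_le (fun a => mul_nonneg (ind_nonneg _ _) (exp_pos _).le) hle hsum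

theorem step (A : Set ℕ) (j n : ℕ) :
    ind (dset A (j + 1)) n ≤ ∑ p ∈ antidiagonal n, ind A p.1 * ind (dset A j) p.2 := by
  have h0 : 0 ≤ ∑ p ∈ antidiagonal n, ind A p.1 * ind (dset A j) p.2 :=
    Finset.sum_nonneg fun p _ => mul_nonneg (ind_nonneg _ _) (ind_nonneg _ _)
  by_cases h : n ∈ dset A (j + 1)
  · rw [ind_pos h]
    obtain ⟨a, ha, s, hs, hsA, hn⟩ := h
    obtain ⟨b, s', rfl⟩ : ∃ b s', s = b ::ₘ s' := by
      have : s ≠ 0 := by
        rintro rfl
        simp at hs
      obtain ⟨b, hb⟩ := Multiset.exists_mem_of_ne_zero this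
      exact ⟨b, s.erase b, (Multiset.cons_erase hb).symm⟩
    have hbA : b ∈ A := hsA b (Multiset.mem_cons_self b s')
    have hs' : s'.card = j := by simpa using hs
    have hmem : 2 * a + s'.sum ∈ dset A j :=
      ⟨a, ha, s', hs', fun x hx => hsA x (Multiset.mem_cons_of_mem hx), rfl⟩
    have hp : (b, 2 * a + s'.sum) ∈ antidiagonal n := by
      rw [HasAntidiagonal.mem_antidiagonal, hn, Multiset.sum_cons]
      show b + (2 * a + s'.sum) = 2 * a + (b + s'.sum)
      ring
    refine le_trans ?_ (Finset.single_le_sum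
      (f := fun p : ℕ × ℕ => ind A p.1 * ind (dset A j) p.2)
      (fun p _ => mul_nonneg (ind_nonneg _ _) (ind_nonneg _ _)) hp)
    show (1 : ℝ) ≤ ind A b * ind (dset A j) (2 * a + s'.sum)
    rw [ind_pos hbA, ind_pos hmem, mul_one]
  · rw [ind_neg h]; exact h0

theorem main : S_DSET := by
  intro A j t ht
  induction j with
  | zero => simpa using zero_case A t ht
  | succ j ih =>
    have hsA := summable_a (ind_zero_or_one A) ht
    have hsD := summable_a (ind_zero_or_one (dset A j)) ht
    have h1 : Summable (fun n : ℕ => ‖ind A n * exp (-(t * n))‖) := hsA.norm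
    have h2 : Summable (fun n : ℕ => ‖ind (dset A j) n * exp (-(t * n))‖) := hsD.norm
    have hprod := tsum_mul_tsum_eq_tsum_sum_antidiagonal_of_summable_norm h1 h2
    have hconv : ∀ n : ℕ, ∑ p ∈ antidiagonal n, ind A p.1 * exp (-(t * p.1)) *
        (ind (dset A j) p.2 * exp (-(t * p.2))) =
        (∑ p ∈ antidiagonal n, ind A p.1 * ind (dset A j) p.2) * exp (-(t * n)) := by
      intro n
      rw [Finset.sum_mul]
      refine Finset.sum_congr rfl fun p hp => ?_
      rw [HasAntidiagonal.mem_antidiagonal] at hp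
      have : exp (-(t * n)) = exp (-(t * p.1)) * exp (-(t * p.2)) := by
        rw [← Real.exp_add, ← hp]; congr 1; push_cast; ring
      rw [this]; ring
    have h3 : Summable (fun n : ℕ =>
        (∑ p ∈ antidiagonal n, ind A p.1 * ind (dset A j) p.2) * exp (-(t * n))) := by
      have h4 := (summable_norm_sum_mul_antidiagonal_of_summable_norm h1 h2).of_norm
      exact h4.congr hconv
    calc ∑' n : ℕ, ind (dset A (j + 1)) n * exp (-(t * n))
        ≤ ∑' n : ℕ, (∑ p ∈ antidiagonal n, ind A p.1 * ind (dset A j) p.2) * exp (-(t * n)) := by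
          refine Summable.tsum_le_tsum (fun n => ?_)
            (summable_a (ind_zero_or_one (dset A (j + 1))) ht) h3
          exact mul_le_mul_of_nonneg_right (step A j n) (exp_pos _).le
      _ = Fr (ind A) t * ∑' n : ℕ, ind (dset A j) n * exp (-(t * n)) := by
          unfold Fr
          rw [hprod]
          exact (tsum_congr hconv).symm
      _ ≤ Fr (ind A) t * Fr (ind A) t ^ (j + 1) := by
          apply mul_le_mul_of_nonneg_left ih
          exact tsum_nonneg fun n => mul_nonneg (ind_nonneg _ _) (exp_pos _).le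
      _ = Fr (ind A) t ^ (j + 1 + 1) := by ring

end Pool.Agent.Helper74.EH.DSET
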