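import Pool.Agent.Helper65.EH.Defs

/-!
EH, part POW: powers of the generating function
-/

set_option autoImplicit false

open MeasureTheory Metric Real Set Finset

namespace Pool.Agent.Helper74.EH.POW

open Pool.Agent.Helper65.EH
open Pool.Agent.Helper65.ET (Dir Adm Fr adm_a a_nonneg)

variable {a : ℕ → ℝ}

theorem cp_nonneg (ha : ∀ n, 0 ≤ a n) (h n : ℕ) : 0 ≤ cp a h n := by
  induction h generalizing n with
  | zero => unfold cp; split_ifs <;> norm_num
  | succ h ih =>
    unfold cp
    exact Finset.sum_nonneg fun p _ => mul_nonneg (ha _) (ih _)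

theorem conv_exp (b c : ℕ → ℝ) (t : ℝ) (n : ℕ) :
    ∑ p ∈ antidiagonal n, b p.1 * exp (-(t * p.1)) * (c p.2 * exp (-(t * p.2))) =
      (∑ p ∈ antidiagonal n, b p.1 * c p.2) * exp (-(t * n)) := by
  rw [Finset.sum_mul]
  refine Finset.sum_congr rfl fun p hp => ?_
  rw [HasAntidiagonal.mem_antidiagonal] at hp
  have : exp (-(t * n)) = exp (-(t * p.1)) * exp (-(t * p.2)) := by
    rw [← Real.exp_add, ← hp]; congr 1; push_cast; ring
  rw [this]; ring

theorem adm_cp (ha : ∀ n, 0 ≤ a n) (hA : Adm a) (h : ℕ) : Adm (cp a h) := by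
  induction h with
  | zero =>
    intro ε _
    refine summable_of_ne_finset_zero (s := {0}) fun n hn => ?_
    have : n ≠ 0 := by simpa using hn
    unfold cp
    rw [if_neg this]; simp
  | succ h ih =>
    intro ε hε
    have h1 := hA ε hε
    have h2 := ih ε hε
    have h3 := summable_norm_sum_mul_antidiagonal_of_summable_norm h1.norm h2.norm
    refine h3.congr fun n => ?_
    have h4 : ∀ m, |a m| = a m := fun m => abs_of_nonneg (ha m)
    have h5 : ∀ m, |cp a h m| = cp a h m := fun m => abs_of_nonneg (cp_nonneg ha h m)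
    simp only [h4, h5]
    rw [conv_exp, Real.norm_eq_abs, abs_mul, abs_of_pos (exp_pos _)]
    rfl

end Pool.Agent.Helper74.EH.POW

namespace Pool.Agent.Helper74.EH.POW

open Pool.Agent.Helper65.EH
open Pool.Agent.Helper65.ET (Dir Adm Fr adm_a a_nonneg)

theorem main : S_POW := by
  intro a ha h
  have ha0 : ∀ n, 0 ≤ a n := a_nonneg ha
  have hA : Adm a := adm_a ha
  refine ⟨fun n => cp_nonneg ha0 h n, adm_cp ha0 hA h, ?_, ?_⟩
  · intro t ht
    induction h with
    | zero =>
      rw [pow_zero, tsum_eq_single 0]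
      · simp [cp]
      · intro n hn; simp [cp, hn]
    | succ h ih =>
      have h1 : Summable (fun n : ℕ => ‖a n * exp (-(t * n))‖) := by
        refine (hA t ht).congr fun n => ?_
        rw [norm_mul, Real.norm_eq_abs, Real.norm_eq_abs, abs_of_pos (exp_pos _)]
      have h2 : Summable (fun n : ℕ => ‖cp a h n * exp (-(t * n))‖) := by
        refine (adm_cp ha0 hA h t ht).congr fun n => ?_
        rw [norm_mul, Real.norm_eq_abs, Real.norm_eq_abs, abs_of_pos (exp_pos _)]
      rw [pow_succ', ih]
      unfold Fr
      rw [tsum_mul_tsum_eq_tsum_sum_antidiagonal_of_summable_norm h1 h2]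
      exact tsum_congr fun n => conv_exp _ _ _ _
  · intro s hs
    induction h with
    | zero =>
      unfold Dir
      rw [pow_zero, tsum_eq_single 0]
      · simp [cp]
      · intro n hn; simp [cp, hn]
    | succ h ih =>
      have h1 := hA.summable_norm hs
      have h2 := (adm_cp ha0 hA h).summable_norm hs
      rw [pow_succ', ih]
      unfold Dir
      rw [tsum_mul_tsum_eq_tsum_sum_antidiagonal_of_summable_norm h1 h2]
      refine tsum_congr fun n => ?_
      have h3 : cp a (h + 1) n = ∑ p ∈ antidiagonal n, a p.1 * cp a h p.2 := rfl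
      rw [h3]
      push_cast
      rw [Finset.sum_mul]
      refine Finset.sum_congr rfl fun p hp => ?_
      rw [HasAntidiagonal.mem_antidiagonal] at hp
      have : Complex.exp (-(n * s)) = Complex.exp (-(p.1 * s)) * Complex.exp (-(p.2 * s)) := by
        rw [← Complex.exp_add, ← hp]; congr 1; push_cast; ring
      rw [this]; ring

end Pool.Agent.Helper74.EH.POW
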